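import Pool.Agent.Helper84.PL.Goals

/-!
# Project PL: packet BIP (bipartite cover graph)
-/

set_option autoImplicit false

namespace Pool.Agent.Helper22.PL

open Pool.Agent.Helper84.PL

theorem ch_le {V : Type} [PartialOrder V] {χ : V → Bool} {u v : V} {p : ℕ}
    (h : Ch χ u v p) : u ≤ v := by
  induction h with
  | refl => exact le_rfl
  | same =>
    rename_i h1 h2 h3 ih
    exact ih.trans h2.le
  | diff =>
    rename_i h1 h2 h3 ih
    exact ih.trans h2.le

theorem ch_zero {V : Type} [PartialOrder V] {χ : V → Bool}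
    (hχ : ∀ u w : V, u ⋖ w → χ u ≠ χ w) {u v : V} (h : Ch χ u v 0) : u = v := by
  cases h with
  | refl => rfl
  | same =>
    rename_i h2 h3 h1
    exact absurd h3 (hχ _ _ h2)

theorem ch_refl {V : Type} [PartialOrder V] {χ : V → Bool}
    (hχ : ∀ u w : V, u ⋖ w → χ u ≠ χ w) {u v : V} {p : ℕ} (h : Ch χ u v p) (huv : u = v) :
    p = 0 := by
  cases h with
  | refl => rfl
  | same =>
    rename_i h2 h3 h1
    exact absurd h3 (hχ _ _ h2)
  | diff =>
    rename_i h1 h2 h3
    exfalso
    have h4 := ch_le h1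
    have h5 := h2.lt
    rw [← huv] at h5
    exact absurd (h4.trans_lt h5) (lt_irrefl _)

theorem ch_one {V : Type} [PartialOrder V] {χ : V → Bool}
    (hχ : ∀ u w : V, u ⋖ w → χ u ≠ χ w) {u v : V} (h : Ch χ u v 1) : u ⋖ v := by
  cases h with
  | same =>
    rename_i h2 h3 h1
    exact absurd h3 (hχ _ _ h2)
  | diff =>
    rename_i h2 h3 h1
    have h4 := ch_zero hχ h1
    rw [h4]
    exact h2

theorem ch_cov {V : Type} [PartialOrder V] {χ : V → Bool}
    (hχ : ∀ u w : V, u ⋖ w → χ u ≠ χ w) {u v : V} {q : ℕ} (h : Ch χ u v q) (huv : u ⋖ v) :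
    q = 1 := by
  cases h with
  | refl => exact absurd huv.lt (lt_irrefl _)
  | same =>
    rename_i h2 h3 h1
    exact absurd h3 (hχ _ _ h2)
  | diff =>
    rename_i h1 h2 h3
    have h4 := ch_le h1
    rcases h4.eq_or_lt with h5 | h5
    · rw [ch_refl hχ h1 h5]
    · exact absurd h2.lt (huv.2 h5)

theorem bip : G_BIP := by
  intro V _ χ hχ
  refine ⟨?_, ?_⟩
  · intro u v n h
    cases h with
    | refl => exact Nat.one_pos
    | step =>
      rename_i h1 h2 h3
      exact absurd h3 (hχ _ _ h2)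
  · intro u v p q hp hq hp1
    rcases Nat.le_one_iff_eq_zero_or_eq_one.1 hp1 with h0 | h0
    · subst h0
      exact ch_refl hχ hq (ch_zero hχ hp)
    · subst h0
      exact ch_cov hχ hq (ch_one hχ hp)

end Pool.Agent.Helper22.PL
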